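import Pool.Agent.Helper84.SPN.St

/-!
Module RES of project SPN (helper84): the group `Re` is solvable, its order, no odd quotient.
-/

set_option autoImplicit false

namespace Pool.Agent.Helper43.SPN

open Pool.Agent.Helper84.SPN Pool.Agent.Helper75.MX
open scoped commutatorElement

section Om

variable {n : ℕ} {F : Type} [Field F]

theorem om_add_left (v v' w : VV n F) : om (v + v') w = om v w + om v' w := by
  unfold om
  rw [← Finset.sum_add_distrib]
  refine Finset.sum_congr rfl fun i _ => ?_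
  simp only [Prod.fst_add, Prod.snd_add, Pi.add_apply]
  ring

theorem om_add_right (v w w' : VV n F) : om v (w + w') = om v w + om v w' := by
  unfold om
  rw [← Finset.sum_add_distrib]
  refine Finset.sum_congr rfl fun i _ => ?_
  simp only [Prod.fst_add, Prod.snd_add, Pi.add_apply]
  ring

theorem om_smul_left (c : F) (v w : VV n F) : om (c • v) w = c * om v w := by
  unfold om
  rw [Finset.mul_sum]
  refine Finset.sum_congr rfl fun i _ => ?_
  simp only [Prod.smul_fst, Prod.smul_snd, Pi.smul_apply, smul_eq_mul]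
  ring

theorem om_smul_right (c : F) (v w : VV n F) : om v (c • w) = c * om v w := by
  unfold om
  rw [Finset.mul_sum]
  refine Finset.sum_congr rfl fun i _ => ?_
  simp only [Prod.smul_fst, Prod.smul_snd, Pi.smul_apply, smul_eq_mul]
  ring

theorem om_self (v : VV n F) : om v v = 0 := by
  unfold om
  refine Finset.sum_eq_zero fun i _ => ?_
  ring

theorem om_swap (v w : VV n F) : om v w = - om w v := by
  unfold om
  rw [← Finset.sum_neg_distrib]
  refine Finset.sum_congr rfl fun i _ => ?_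
  ring

theorem om_neg_left (v w : VV n F) : om (-v) w = - om v w := by
  rw [← neg_one_smul F v, om_smul_left]; ring

theorem om_neg_right (v w : VV n F) : om v (-w) = - om v w := by
  rw [← neg_one_smul F w, om_smul_right]; ring

theorem om_sub_left (v v' w : VV n F) : om (v - v') w = om v w - om v' w := by
  rw [sub_eq_add_neg, om_add_left, om_neg_left]; ring

theorem om_sub_right (v w w' : VV n F) : om v (w - w') = om v w - om v w' := by
  rw [sub_eq_add_neg, om_add_right, om_neg_right]; ring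

theorem om_zero_left (w : VV n F) : om 0 w = 0 := by
  simp [om]

theorem om_zero_right (w : VV n F) : om w 0 = 0 := by
  simp [om]

end Om

section EF

variable {m : ℕ} {F : Type} [Field F]

theorem om_e0 (v : VV (m + 1) F) : om (e0 m F) v = v.2 0 := by
  unfold om e0
  rw [Finset.sum_eq_single 0]
  · simp
  · intro i _ hi
    simp [Pi.single_eq_of_ne hi]
  · simp

theorem om_f0 (v : VV (m + 1) F) : om (f0 m F) v = - v.1 0 := by
  unfold om f0
  rw [Finset.sum_eq_single 0]
  · simp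
  · intro i _ hi
    simp [Pi.single_eq_of_ne hi]
  · simp

theorem om_e0_f0 : om (e0 m F) (f0 m F) = 1 := by
  rw [om_e0]; simp [f0]

theorem om_f0_e0 : om (f0 m F) (e0 m F) = -1 := by
  rw [om_f0]; simp [e0]

theorem e0_ne : e0 m F ≠ 0 := by
  intro h
  have h1 := om_e0_f0 (m := m) (F := F)
  rw [h, om_zero_left] at h1
  exact zero_ne_one h1

end EF

section Main

variable {m : ℕ} {F : Type} [Field F]

/-- the data of RRR -/
def RData (r : VV (m + 1) F → F → SpG (m + 1) F) : Prop :=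
  ∀ (u : VV (m + 1) F) (c : F), om (e0 m F) u = 0 → om (f0 m F) u = 0 →
    r u c ∈ Re m F ∧
    (∀ v, (r u c).1 v = v + om (e0 m F) v • (u + c • e0 m F) + om u v • e0 m F) ∧
    ∀ (u' : VV (m + 1) F) (c' : F), om (e0 m F) u' = 0 → om (f0 m F) u' = 0 →
      r u c * r u' c' = r (u + u') (c + c' + om u u')

/-- acts trivially on `e₀^⊥ / e₀` -/
def Is1 (g : SpG (m + 1) F) : Prop :=
  g.1 (e0 m F) = e0 m F ∧
    ∀ y : VV (m + 1) F, om (e0 m F) y = 0 → ∃ c : F, g.1 y = y + c • e0 m F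

theorem key1 (r : VV (m + 1) F → F → SpG (m + 1) F) (hr : RData r) (g : SpG (m + 1) F)
    (hg : Is1 g) : ∃ (u : VV (m + 1) F) (c : F), om (e0 m F) u = 0 ∧ om (f0 m F) u = 0 ∧
      g = r u c := by
  obtain ⟨hg1, hg2⟩ := hg
  set w := g.1 (f0 m F) with hw
  have hinv : ∀ x y, om (g.1 x) (g.1 y) = om x y := g.2
  have hew : om (e0 m F) w = 1 := by
    have := hinv (e0 m F) (f0 m F)
    rw [hg1] at this
    rw [hw, this, om_e0_f0]
  set c := om w (f0 m F) with hc
  set u := w - f0 m F - c • e0 m F with hu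
  have hu1 : om (e0 m F) u = 0 := by
    rw [hu, om_sub_right, om_sub_right, om_smul_right, hew, om_e0_f0, om_self]; ring
  have hu2 : om (f0 m F) u = 0 := by
    rw [hu, om_sub_right, om_sub_right, om_smul_right, om_self, om_f0_e0, om_swap, ← hc]; ring
  have hwu : w = f0 m F + u + c • e0 m F := by
    rw [hu]; abel
  refine ⟨u, c, hu1, hu2, ?_⟩
  apply Subtype.ext
  apply LinearEquiv.ext
  intro v
  rw [(hr u c hu1 hu2).2.1 v]
  -- decomposition
  set a := om v (f0 m F) with ha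
  set b := om (e0 m F) v with hb
  set v' := v - a • e0 m F - b • f0 m F with hv'
  have hv : v = a • e0 m F + b • f0 m F + v' := by rw [hv']; abel
  have hv1 : om (e0 m F) v' = 0 := by
    rw [hv', om_sub_right, om_sub_right, om_smul_right, om_smul_right, om_self, om_e0_f0, ← hb]
    ring
  have hv2 : om v' (f0 m F) = 0 := by
    rw [hv', om_sub_left, om_sub_left, om_smul_left, om_smul_left, om_self, om_e0_f0, ← ha]
    ring
  obtain ⟨d, hd⟩ := hg2 v' hv1
  have hd2 : d = om u v' := by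
    have h1 := hinv v' (f0 m F)
    rw [hd, hv2, ← hw, om_add_left, om_smul_left, hew, hwu, om_add_right, om_add_right,
      om_smul_right, hv2, om_swap v' (e0 m F), hv1, om_swap v' u] at h1
    linear_combination h1
  have huv : om u v = om u v' := by
    rw [hv, om_add_right, om_add_right, om_smul_right, om_smul_right, om_swap u (e0 m F), hu1,
      om_swap u (f0 m F), hu2]
    ring
  rw [huv]
  conv_lhs => rw [hv]
  rw [map_add, map_add, map_smul, map_smul, hg1, ← hw, hd, hwu, hd2]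
  conv_rhs => rw [hv]
  module

theorem r_is1 (r : VV (m + 1) F → F → SpG (m + 1) F) (hr : RData r) (u : VV (m + 1) F) (c : F)
    (h1 : om (e0 m F) u = 0) (h2 : om (f0 m F) u = 0) : Is1 (r u c) := by
  have h := (hr u c h1 h2).2.1
  refine ⟨?_, fun y hy => ⟨om u y, ?_⟩⟩
  · rw [h, om_self, om_swap u, h1]; simp
  · rw [h, hy]; simp

theorem r_zero (r : VV (m + 1) F → F → SpG (m + 1) F) (hr : RData r) : r 0 0 = 1 := by
  apply Subtype.ext
  apply LinearEquiv.ext
  intro v
  rw [(hr 0 0 (om_zero_right _) (om_zero_right _)).2.1 v, om_zero_left]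
  simp

/-- the perp of `e₀` is invariant -/
theorem perp_inv (g : SpG (m + 1) F) (hg : g.1 (e0 m F) = e0 m F) (y : VV (m + 1) F) :
    om (e0 m F) (g.1 y) = om (e0 m F) y := by
  have h : ∀ x y, om (g.1 x) (g.1 y) = om x y := g.2
  have h1 := h (e0 m F) y
  rwa [hg] at h1

/-- fixes `e₀^⊥` pointwise -/
def Is0 (g : SpG (m + 1) F) : Prop :=
  g.1 (e0 m F) = e0 m F ∧ ∀ y : VV (m + 1) F, om (e0 m F) y = 0 → g.1 y = y

theorem comm_act (g h : SpG (m + 1) F) (y : VV (m + 1) F) :
    ∃ y', h.1 (g.1 y') = y ∧ (g * h * g⁻¹ * h⁻¹).1 y = g.1 (h.1 y') := by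
  refine ⟨g.1.symm (h.1.symm y), ?_, rfl⟩
  rw [LinearEquiv.apply_symm_apply, LinearEquiv.apply_symm_apply]

theorem comm_e0 (g h : SpG (m + 1) F) (hg : g.1 (e0 m F) = e0 m F) (hh : h.1 (e0 m F) = e0 m F) :
    (g * h * g⁻¹ * h⁻¹).1 (e0 m F) = e0 m F := by
  obtain ⟨y', h1, h2⟩ := comm_act g h (e0 m F)
  have h3 : y' = e0 m F := by
    apply g.1.injective
    apply h.1.injective
    rw [h1, hg, hh]
  rw [h2, h3, hh, hg]

theorem comm1 (g h : SpG (m + 1) F) (hg : IsR m F g.1) (hh : IsR m F h.1) :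
    Is1 (g * h * g⁻¹ * h⁻¹) := by
  obtain ⟨hg1, ε, -, hgy⟩ := hg
  obtain ⟨hh1, δ, -, hhy⟩ := hh
  refine ⟨comm_e0 g h hg1 hh1, fun y hy => ?_⟩
  obtain ⟨y', h1, h2⟩ := comm_act g h y
  have hy' : om (e0 m F) y' = 0 := by
    rw [← perp_inv g hg1, ← perp_inv h hh1, h1, hy]
  obtain ⟨c1, e1⟩ := hgy y' hy'
  obtain ⟨c2, e2⟩ := hhy y' hy'
  refine ⟨δ * c1 + c2 - ε * c2 - c1, ?_⟩
  rw [h2, e2, map_add, map_smul, map_smul, e1, hg1]
  rw [e1, map_add, map_smul, map_smul, e2, hh1] at h1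
  rw [← h1]
  module

theorem comm0 (g h : SpG (m + 1) F) (hg : Is1 g) (hh : Is1 h) :
    Is0 (g * h * g⁻¹ * h⁻¹) := by
  obtain ⟨hg1, hgy⟩ := hg
  obtain ⟨hh1, hhy⟩ := hh
  refine ⟨comm_e0 g h hg1 hh1, fun y hy => ?_⟩
  obtain ⟨y', h1, h2⟩ := comm_act g h y
  have hy' : om (e0 m F) y' = 0 := by
    rw [← perp_inv g hg1, ← perp_inv h hh1, h1, hy]
  obtain ⟨c1, e1⟩ := hgy y' hy'
  obtain ⟨c2, e2⟩ := hhy y' hy'
  rw [h2, e2, map_add, map_smul, e1, hg1]
  rw [e1, map_add, map_smul, e2, hh1] at h1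
  rw [← h1]
  module

theorem Is0.is1 {g : SpG (m + 1) F} (hg : Is0 g) : Is1 g :=
  ⟨hg.1, fun y hy => ⟨0, by rw [hg.2 y hy]; simp⟩⟩

theorem comm_triv (r : VV (m + 1) F → F → SpG (m + 1) F) (hr : RData r) (g h : SpG (m + 1) F)
    (hg : Is0 g) (hh : Is0 h) : g * h = h * g := by
  obtain ⟨u, c, hu1, hu2, rfl⟩ := key1 r hr g hg.is1
  obtain ⟨u', c', hu1', hu2', rfl⟩ := key1 r hr h hh.is1
  rw [(hr u c hu1 hu2).2.2 u' c' hu1' hu2', (hr u' c' hu1' hu2').2.2 u c hu1 hu2]
  have h1 : om u u' = 0 := by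
    have h2 := hg.2 u' hu1'
    rw [(hr u c hu1 hu2).2.1 u', hu1', zero_smul, add_zero] at h2
    have h3 : om u u' • e0 m F = 0 := by
      have := congrArg (fun x => x - u') h2
      simpa using this
    rcases smul_eq_zero.1 h3 with h4 | h4
    · exact h4
    · exact absurd h4 e0_ne
  rw [om_swap u' u, h1, add_comm u u', add_comm c c', neg_zero]

/-- the subgroup `R₁` -/
def R1 (m : ℕ) (F : Type) [Field F] : Subgroup (Re m F) where
  carrier := {g | Is1 g.1}
  one_mem' := ⟨rfl, fun y _ => ⟨0, by simp⟩⟩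
  mul_mem' := by
    rintro g h ⟨hg, hgy⟩ ⟨hh, hhy⟩
    refine ⟨?_, ?_⟩
    · show g.1.1 (h.1.1 (e0 m F)) = e0 m F
      rw [hh, hg]
    · intro y hy
      obtain ⟨c, hc⟩ := hhy y hy
      obtain ⟨d, hd⟩ := hgy y hy
      refine ⟨d + c, ?_⟩
      show g.1.1 (h.1.1 y) = _
      rw [hc, map_add, map_smul, hd, hg]
      module
  inv_mem' := by
    rintro g ⟨hg, hgy⟩
    refine ⟨?_, ?_⟩
    · show g.1.1.symm (e0 m F) = e0 m F
      rw [LinearEquiv.symm_apply_eq]
      exact hg.symm
    · intro y hy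
      obtain ⟨c, hc⟩ := hgy y hy
      refine ⟨-c, ?_⟩
      show g.1.1.symm y = _
      rw [LinearEquiv.symm_apply_eq, map_add, map_smul, hc, hg]
      module

/-- the subgroup of elements fixing `e₀^⊥` -/
def Z0 (m : ℕ) (F : Type) [Field F] : Subgroup (Re m F) where
  carrier := {g | Is0 g.1}
  one_mem' := ⟨rfl, fun y _ => rfl⟩
  mul_mem' := by
    rintro g h ⟨hg, hgy⟩ ⟨hh, hhy⟩
    refine ⟨?_, ?_⟩
    · show g.1.1 (h.1.1 (e0 m F)) = e0 m F
      rw [hh, hg]
    · intro y hy
      show g.1.1 (h.1.1 y) = _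
      rw [hhy y hy, hgy y hy]
  inv_mem' := by
    rintro g ⟨hg, hgy⟩
    refine ⟨?_, ?_⟩
    · show g.1.1.symm (e0 m F) = e0 m F
      rw [LinearEquiv.symm_apply_eq]
      exact hg.symm
    · intro y hy
      show g.1.1.symm y = _
      rw [LinearEquiv.symm_apply_eq, hgy y hy]

theorem re_solvable (r : VV (m + 1) F → F → SpG (m + 1) F) (hr : RData r) :
    Group.IsSolvable (Re m F) := by
  have h1 : derivedSeries (Re m F) 1 ≤ R1 m F := by
    rw [derivedSeries_succ, Subgroup.commutator_le]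
    intro g _ h _
    exact comm1 g.1 h.1 g.2 h.2
  have h2 : derivedSeries (Re m F) 2 ≤ Z0 m F := by
    rw [derivedSeries_succ, Subgroup.commutator_le]
    intro g hg h hh
    exact comm0 g.1 h.1 (h1 hg) (h1 hh)
  have h3 : derivedSeries (Re m F) 3 = ⊥ := by
    rw [eq_bot_iff, derivedSeries_succ, Subgroup.commutator_le]
    intro g hg h hh
    have e := comm_triv r hr g.1 h.1 (h2 hg) (h2 hh)
    rw [Subgroup.mem_bot, commutatorElement_eq_one_iff_mul_comm]
    exact Subtype.ext e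
  exact ⟨3, h3⟩

theorem re_card (r : VV (m + 1) F → F → SpG (m + 1) F) (hr : RData r) [Finite F] :
    Nat.card (Re m F) ≤ 2 * Nat.card F ^ (2 * m + 1) := by
  classical
  -- the elements of `R₁`
  have hcons1 : ∀ v : VV m F, om (e0 m F) (Fin.cons 0 v.1, Fin.cons 0 v.2) = 0 := by
    intro v; rw [om_e0]; rfl
  have hcons2 : ∀ v : VV m F, om (f0 m F) (Fin.cons 0 v.1, Fin.cons 0 v.2) = 0 := by
    intro v; rw [om_f0]; simp
  let ρ : VV m F × F → Re m F := fun p =>
    ⟨r (Fin.cons 0 p.1.1, Fin.cons 0 p.1.2) p.2, (hr _ _ (hcons1 p.1) (hcons2 p.1)).1⟩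
  have hρ : ∀ g : Re m F, Is1 g.1 → ∃ p, ρ p = g := by
    intro g hg
    obtain ⟨u, c, hu1, hu2, h⟩ := key1 r hr g.1 hg
    refine ⟨((Fin.tail u.1, Fin.tail u.2), c), ?_⟩
    apply Subtype.ext
    rw [h]
    show r (Fin.cons 0 (Fin.tail u.1), Fin.cons 0 (Fin.tail u.2)) c = r u c
    rw [om_e0] at hu1
    rw [om_f0, neg_eq_zero] at hu2
    congr 1
    apply Prod.ext
    · show Fin.cons 0 (Fin.tail u.1) = u.1
      rw [← hu2, Fin.cons_self_tail]
    · show Fin.cons 0 (Fin.tail u.2) = u.2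
      rw [← hu1, Fin.cons_self_tail]
  -- an element outside `R₁`
  have hex : ∃ h0 : Re m F, ∀ g : Re m F, Is1 g.1 ∨ Is1 (h0⁻¹ * g).1 := by
    by_cases hc : ∃ h0 : Re m F, ¬ Is1 h0.1
    · obtain ⟨h0, hh0⟩ := hc
      refine ⟨h0, fun g => ?_⟩
      by_cases hg : Is1 g.1
      · exact Or.inl hg
      · right
        have key : ∀ x : Re m F, ¬ Is1 x.1 → ∀ y : VV (m + 1) F, om (e0 m F) y = 0 →
            ∃ c : F, x.1.1 y = - y + c • e0 m F := by
          intro x hx y hy
          obtain ⟨hx1, ε, hε, hxy⟩ := x.2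
          rcases hε with rfl | rfl
          · exfalso
            apply hx
            refine ⟨hx1, fun y hy => ?_⟩
            obtain ⟨c, hc⟩ := hxy y hy
            exact ⟨c, by rw [hc, one_smul]⟩
          · obtain ⟨c, hc⟩ := hxy y hy
            exact ⟨c, by rw [hc, neg_smul, one_smul]⟩
        have e0h := h0.2.1
        have e0g := g.2.1
        refine ⟨?_, fun y hy => ?_⟩
        · show h0.1.1.symm (g.1.1 (e0 m F)) = _
          rw [e0g, LinearEquiv.symm_apply_eq, e0h]
        · obtain ⟨c, hc⟩ := key g hg y hy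
          obtain ⟨d, hd⟩ := key h0 hh0 y hy
          refine ⟨c - d, ?_⟩
          show h0.1.1.symm (g.1.1 y) = _
          rw [LinearEquiv.symm_apply_eq, hc, map_add, map_smul, hd, e0h]
          module
    · push Not at hc
      exact ⟨1, fun g => Or.inl (hc g)⟩
  obtain ⟨h0, hh0⟩ := hex
  let Φ : Bool × (VV m F × F) → Re m F := fun p => (if p.1 then h0 else 1) * ρ p.2
  have hΦ : Function.Surjective Φ := by
    intro g
    rcases hh0 g with h | h
    · obtain ⟨p, hp⟩ := hρ g h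
      exact ⟨(false, p), by simp [Φ, hp]⟩
    · obtain ⟨p, hp⟩ := hρ _ h
      exact ⟨(true, p), by simp [Φ, hp]⟩
  refine (Nat.card_le_card_of_surjective Φ hΦ).trans (le_of_eq ?_)
  rw [Nat.card_prod, Nat.card_prod, Nat.card_prod, Nat.card_fun, Nat.card_fin]
  simp only [Nat.card_eq_fintype_card, Fintype.card_bool]
  ring

/-- the involution -/
def hinv (m : ℕ) (F : Type) [Field F] : VV (m + 1) F →ₗ[F] VV (m + 1) F where
  toFun v := (2 * om v (f0 m F)) • e0 m F + (2 * om (e0 m F) v) • f0 m F - v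
  map_add' := by
    intro v w
    rw [om_add_left, om_add_right]
    module
  map_smul' := by
    intro c v
    rw [om_smul_left, om_smul_right, RingHom.id_apply]
    module

theorem hinv_apply (v : VV (m + 1) F) :
    hinv m F v = (2 * om v (f0 m F)) • e0 m F + (2 * om (e0 m F) v) • f0 m F - v := rfl

theorem hinv_invol : Function.Involutive (hinv m F) := by
  intro v
  have h1 : om (hinv m F v) (f0 m F) = om v (f0 m F) := by
    rw [hinv_apply, om_sub_left, om_add_left, om_smul_left, om_smul_left, om_self, om_e0_f0]; ring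
  have h2 : om (e0 m F) (hinv m F v) = om (e0 m F) v := by
    rw [hinv_apply, om_sub_right, om_add_right, om_smul_right, om_smul_right, om_self, om_e0_f0]
    ring
  rw [hinv_apply (hinv m F v), h1, h2, hinv_apply]
  module

theorem hinv_om (v w : VV (m + 1) F) : om (hinv m F v) (hinv m F w) = om v w := by
  rw [hinv_apply, hinv_apply]
  simp only [om_sub_left, om_sub_right, om_add_left, om_add_right, om_smul_left, om_smul_right,
    om_self, om_e0_f0, om_f0_e0]
  rw [om_swap v (e0 m F), om_swap (f0 m F) w]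
  ring

/-- the involution as an element of the symplectic group -/
def hel (m : ℕ) (F : Type) [Field F] : SpG (m + 1) F :=
  ⟨LinearEquiv.ofInvolutive (hinv m F) hinv_invol, hinv_om⟩

theorem hel_apply (v : VV (m + 1) F) :
    (hel m F).1 v = (2 * om v (f0 m F)) • e0 m F + (2 * om (e0 m F) v) • f0 m F - v := rfl

theorem hel_mem : hel m F ∈ Re m F := by
  refine ⟨?_, -1, Or.inr rfl, fun y hy => ⟨2 * om y (f0 m F), ?_⟩⟩
  · show (hel m F).1 (e0 m F) = _
    rw [hel_apply, om_self, om_e0_f0]; module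
  · show (hel m F).1 y = _
    rw [hel_apply, hy]; module

theorem hel_sq : hel m F * hel m F = 1 := by
  apply Subtype.ext
  apply LinearEquiv.ext
  intro v
  exact hinv_invol v

theorem hel_conj (r : VV (m + 1) F → F → SpG (m + 1) F) (hr : RData r) (u : VV (m + 1) F) (c : F)
    (h1 : om (e0 m F) u = 0) (h2 : om (f0 m F) u = 0) :
    hel m F * r u c * hel m F = r (-u) c := by
  have h1' : om (e0 m F) (-u) = 0 := by rw [om_neg_right, h1, neg_zero]
  have h2' : om (f0 m F) (-u) = 0 := by rw [om_neg_right, h2, neg_zero]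
  apply Subtype.ext
  apply LinearEquiv.ext
  intro v
  have e1 : (hel m F * r u c * hel m F).1 v = (hel m F).1 ((r u c).1 ((hel m F).1 v)) := rfl
  rw [e1, (hr u c h1 h2).2.1, (hr (-u) c h1' h2').2.1]
  have a1 : om (e0 m F) ((hel m F).1 v) = om (e0 m F) v := by
    rw [hel_apply, om_sub_right, om_add_right, om_smul_right, om_smul_right, om_self, om_e0_f0]
    ring
  have a2 : om u ((hel m F).1 v) = - om u v := by
    rw [hel_apply, om_sub_right, om_add_right, om_smul_right, om_smul_right, om_swap u (e0 m F),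
      h1, om_swap u (f0 m F), h2]
    ring
  have a3 : (hel m F).1 ((hel m F).1 v) = v := hinv_invol v
  have a4 : (hel m F).1 u = - u := by
    rw [hel_apply, h1, om_swap u, h2]; module
  have a5 : (hel m F).1 (e0 m F) = e0 m F := by
    rw [hel_apply, om_self, om_e0_f0]; module
  rw [a1, a2, map_add, map_add, map_smul, map_smul, map_add, map_smul, a3, a4, a5, om_neg_left]

theorem mem_of_sq {G : Type} [Group G] (N : Subgroup G) (hN : N.Normal) (hodd : Odd N.index)
    (g : G) (hg : g * g ∈ N) : g ∈ N := by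
  obtain ⟨k, hk⟩ := hodd
  have h1 : g ^ N.index ∈ N := N.pow_index_mem g
  rw [hk, pow_succ, pow_mul, pow_two] at h1
  exact (N.mul_mem_cancel_left (N.pow_mem hg k)).1 h1

theorem re_ts (r : VV (m + 1) F → F → SpG (m + 1) F) (hr : RData r) (hm : 1 ≤ m) :
    TS (Re m F) := by
  intro N hN hodd
  have hsq := mem_of_sq N hN hodd
  -- it is enough to treat `R₁` if `2 = 0`
  by_cases h2 : (2 : F) = 0
  · rw [eq_top_iff]
    intro g _
    apply hsq
    have hg : Is1 g.1 := by
      obtain ⟨hg1, ε, hε, hgy⟩ := g.2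
      have hε1 : ε = 1 := by
        rcases hε with h | h
        · exact h
        · rw [h]; linear_combination -h2
      refine ⟨hg1, fun y hy => ?_⟩
      obtain ⟨c, hc⟩ := hgy y hy
      exact ⟨c, by rw [hc, hε1, one_smul]⟩
    obtain ⟨u, c, hu1, hu2, h⟩ := key1 r hr g.1 hg
    have h3 : g.1 * g.1 = 1 := by
      rw [h, (hr u c hu1 hu2).2.2 u c hu1 hu2, om_self]
      have e1 : u + u = 0 := by rw [← two_smul F u, h2, zero_smul]
      have e2 : c + c + 0 = 0 := by linear_combination c * h2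
      rw [e1, e2, r_zero r hr]
    have h4 : g * g = 1 := Subtype.ext h3
    rw [h4]
    exact N.one_mem
  -- odd characteristic
  let N' : Subgroup (SpG (m + 1) F) := N.map (Re m F).subtype
  have hN' : ∀ (x : SpG (m + 1) F) (hx : x ∈ Re m F), x ∈ N' ↔ (⟨x, hx⟩ : Re m F) ∈ N := by
    intro x hx
    constructor
    · rintro ⟨y, hy, rfl⟩
      exact hy
    · intro h
      exact ⟨_, h, rfl⟩
  have hsq' : ∀ x : SpG (m + 1) F, x ∈ Re m F → x * x ∈ N' → x ∈ N' := by
    intro x hx h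
    rw [hN' x hx]
    rw [hN' (x * x) ((Re m F).mul_mem hx hx)] at h
    exact hsq _ h
  have hH : hel m F ∈ N' := hsq' _ hel_mem (by rw [hel_sq]; exact N'.one_mem)
  have hconj : ∀ x y : SpG (m + 1) F, x ∈ N' → y ∈ Re m F → y * x * y⁻¹ ∈ N' := by
    rintro x y ⟨z, hz, rfl⟩ hy
    exact ⟨⟨y, hy⟩ * z * ⟨y, hy⟩⁻¹, hN.conj_mem z hz _, rfl⟩
  have hneg1 : ∀ u : VV (m + 1) F, om (e0 m F) u = 0 → om (e0 m F) (-u) = 0 := by
    intro u h; rw [om_neg_right, h, neg_zero]
  have hneg2 : ∀ u : VV (m + 1) F, om (f0 m F) u = 0 → om (f0 m F) (-u) = 0 := by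
    intro u h; rw [om_neg_right, h, neg_zero]
  have hadd1 : ∀ u u' : VV (m + 1) F, om (e0 m F) u = 0 → om (e0 m F) u' = 0 →
      om (e0 m F) (u + u') = 0 := by
    intro u u' h h'; rw [om_add_right, h, h', add_zero]
  have hadd2 : ∀ u u' : VV (m + 1) F, om (f0 m F) u = 0 → om (f0 m F) u' = 0 →
      om (f0 m F) (u + u') = 0 := by
    intro u u' h h'; rw [om_add_right, h, h', add_zero]
  have hA : ∀ u, om (e0 m F) u = 0 → om (f0 m F) u = 0 → r (u + u) 0 ∈ N' := by
    intro u h1 h2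
    have e2 := N'.mul_mem (hconj _ _ hH (hr u 0 h1 h2).1) hH
    have e3 : (r u 0)⁻¹ = r (-u) 0 := by
      apply inv_eq_of_mul_eq_one_right
      rw [(hr u 0 h1 h2).2.2 (-u) 0 (hneg1 u h1) (hneg2 u h2), om_neg_right, om_self,
        add_neg_cancel, neg_zero, add_zero, add_zero, r_zero r hr]
    have e4 : r u 0 * hel m F * (r u 0)⁻¹ * hel m F = r (u + u) 0 := by
      rw [e3]
      have e5 := hel_conj r hr (-u) 0 (hneg1 u h1) (hneg2 u h2)
      rw [neg_neg] at e5
      rw [mul_assoc (r u 0), mul_assoc (r u 0), e5, (hr u 0 h1 h2).2.2 u 0 h1 h2, om_self,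
        add_zero, add_zero]
    rw [e4] at e2
    exact e2
  have hB : ∀ u, om (e0 m F) u = 0 → om (f0 m F) u = 0 → r u 0 ∈ N' := by
    intro u h1 h2u
    have e1 : om (e0 m F) ((2 : F)⁻¹ • u) = 0 := by rw [om_smul_right, h1, mul_zero]
    have e2 : om (f0 m F) ((2 : F)⁻¹ • u) = 0 := by rw [om_smul_right, h2u, mul_zero]
    have e3 := hA ((2 : F)⁻¹ • u) e1 e2
    rwa [← two_smul F ((2 : F)⁻¹ • u), smul_smul, mul_inv_cancel₀ h2, one_smul] at e3
  have hC : ∀ c : F, r 0 c ∈ N' := by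
    intro c
    have h10 : (1 : Fin (m + 1)) ≠ 0 := by
      intro h
      have := congrArg Fin.val h
      rw [Fin.val_one', Fin.val_zero, Nat.mod_eq_of_lt (by omega)] at this
      exact one_ne_zero this
    set u : VV (m + 1) F := (Pi.single 1 1, 0) with hu
    set u' : VV (m + 1) F := (0, Pi.single 1 c) with hu'
    have a1 : om (e0 m F) u = 0 := by rw [om_e0, hu]; rfl
    have a2 : om (f0 m F) u = 0 := by
      rw [om_f0, hu]
      show - (Pi.single 1 1 : Fin (m + 1) → F) 0 = 0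
      rw [Pi.single_eq_of_ne h10.symm, neg_zero]
    have a1' : om (e0 m F) u' = 0 := by
      rw [om_e0, hu']
      show (Pi.single 1 c : Fin (m + 1) → F) 0 = 0
      rw [Pi.single_eq_of_ne h10.symm]
    have a2' : om (f0 m F) u' = 0 := by
      rw [om_f0, hu']
      show - (0 : F) = 0
      rw [neg_zero]
    have a3 : om u u' = c := by
      rw [hu, hu']
      unfold om
      rw [Finset.sum_eq_single 1]
      · simp
      · intro i _ hi
        simp [Pi.single_eq_of_ne hi]
      · simp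
    have e1 := N'.mul_mem (N'.mul_mem (hB u a1 a2) (hB u' a1' a2'))
      (hB (-(u + u')) (hneg1 _ (hadd1 _ _ a1 a1')) (hneg2 _ (hadd2 _ _ a2 a2')))
    rw [(hr u 0 a1 a2).2.2 u' 0 a1' a2', (hr (u + u') _ (hadd1 _ _ a1 a1') (hadd2 _ _ a2 a2')).2.2
      (-(u + u')) 0 (hneg1 _ (hadd1 _ _ a1 a1')) (hneg2 _ (hadd2 _ _ a2 a2')), om_neg_right,
      om_self, add_neg_cancel, a3, neg_zero, add_zero, add_zero, add_zero, zero_add] at e1
    exact e1
  have hD : ∀ g : Re m F, Is1 g.1 → g ∈ N := by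
    intro g hg
    obtain ⟨u, c, hu1, hu2, h⟩ := key1 r hr g.1 hg
    have e1 := N'.mul_mem (hB u hu1 hu2) (hC c)
    rw [(hr u 0 hu1 hu2).2.2 0 c (om_zero_right _) (om_zero_right _), om_zero_right, add_zero,
      add_zero, zero_add, ← h] at e1
    exact (hN' g.1 g.2).1 e1
  rw [eq_top_iff]
  intro g _
  obtain ⟨hg1, ε, hε, hgy⟩ := g.2
  rcases hε with rfl | rfl
  · refine hD g ⟨hg1, fun y hy => ?_⟩
    obtain ⟨c, hc⟩ := hgy y hy
    exact ⟨c, by rw [hc, one_smul]⟩
  · have hHN : (⟨hel m F, hel_mem⟩ : Re m F) ∈ N := (hN' _ hel_mem).1 hH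
    rw [← N.mul_mem_cancel_left hHN]
    have a5 : (hel m F).1 (e0 m F) = e0 m F := hel_mem.1
    refine hD _ ⟨?_, fun y hy => ?_⟩
    · show (hel m F).1 (g.1.1 (e0 m F)) = _
      rw [hg1, a5]
    · obtain ⟨c, hc⟩ := hgy y hy
      refine ⟨c - 2 * om y (f0 m F), ?_⟩
      show (hel m F).1 (g.1.1 y) = _
      rw [hc, map_add, map_smul, map_smul, a5, hel_apply, hy]
      module

end Main

theorem hRES (hRRR : StRRR) : StRES := by
  intro m F _ _
  obtain ⟨r, hr⟩ := hRRR m F
  exact ⟨re_solvable r hr, re_card r hr, re_ts r hr⟩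

end Pool.Agent.Helper43.SPN
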